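import Pool.Agent.PX.Stmts

/-!
# Squad PX, row VAX: a function of order at most `c` which vanishes to order `c + 1` is zero

Edit of `Helper60_PW/VAN.lean` (helper60).
-/

set_option autoImplicit false

namespace Pool.Agent.PX.H62

open MvPolynomial
open Pool.Agent.RS (FF io)
open Pool.Agent.PW (dd JUN RR FG Robust VV Piv del eul Ph Zer Free)
open Pool.Agent.PX

theorem vax : VaxStmt := by
  intro E _ _ ρ c0 k s Γ y c
  have base : ∀ (G : Finset ℕ) (X : FF E), FG 0 G X →
      (∃ Fi : ℕ → FF E → Prop, Filt c0 k y G Fi ∧ Fi 1 X) → X = 0 := by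
    rintro G X hX ⟨Fi, hF, h1⟩
    obtain ⟨a, b, hb, ha, hbv, hXe⟩ := (Pool.Agent.PW.aFgz E G X).1.1 hX
    by_contra hne
    have ha0 : a ≠ 0 := by
      rintro rfl
      apply hne
      rw [hXe, map_zero, zero_div]
    have hb' : io E b ≠ 0 := fun h =>
      hb (IsFractionRing.injective (MvPolynomial ℕ E) (FF E) (by rw [h, map_zero]))
    have ha' : io E a ≠ 0 := fun h =>
      ha0 (IsFractionRing.injective (MvPolynomial ℕ E) (FF E) (by rw [h, map_zero]))
    have h4 := hF.mul 1 0 _ _ h1 (hF.mul 0 0 _ _ (hF.poly b) (hF.unitJ a ha0 ha))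
    apply hF.proper
    have h5 : X * (io E b * (io E a)⁻¹) = 1 := by
      rw [hXe]
      field_simp
    rwa [h5] at h4
  induction c with
  | zero =>
    intro G X hs hX h
    obtain ⟨Fi, hF, h1⟩ := h G subset_rfl (by simp)
    exact base G X hX ⟨Fi, hF, h1⟩
  | succ c ih =>
    intro G X hs hX h
    have hd : ∀ i ∉ G, dd i X = 0 := by
      intro i hi
      refine ih (G ∪ Γ i) (dd i X) hs (hX i hi) ?_
      intro J1 hJ hc
      obtain ⟨Fi, hF, h1⟩ := h J1 (Finset.subset_union_left.trans hJ) (by
        have h2 := Finset.card_union_le G (Γ i)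
        have h3 := hs.card i
        have h4 : (c + 1) * s = c * s + s := by ring
        omega)
      exact ⟨Fi, hF, hF.der i (hJ (Finset.mem_union_right _ (hs.refl i))) (c + 1) X h1⟩
    obtain ⟨Fi, hF, h1⟩ := h G subset_rfl (by omega)
    refine base G X hd ⟨Fi, hF, ?_⟩
    have hm : ∀ n, Fi (n + 1) X → Fi 1 X := by
      intro n
      induction n with
      | zero => exact fun h => h
      | succ n ihn => exact fun h => ihn (hF.mono _ _ h)
    exact hm _ h1

end Pool.Agent.PX.H62
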